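import Pool.Agent.Lib.MP_fb3619_al.H90.ZDefs

/-! Theorem Z, row TR: the transfer step of finding 4602. -/

namespace FbZ

open Subgroup
open scoped commutatorElement

universe u

theorem tr_proof : TRStatement.{u} := by
  intro M _ _ p z P Q hp hQP hnorm hcomm hzP hzQ hzp hidx key hzc
  let N : Subgroup P := Q.subgroupOf P
  have hN : N.Normal := by
    constructor
    intro y hy x
    rw [mem_subgroupOf] at hy ⊢
    exact hnorm x.1 x.2 y.1 hy
  let _ : CommGroup (P ⧸ N) :=
    { (inferInstance : Group (P ⧸ N)) with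
      mul_comm := by
        intro a b
        induction a using QuotientGroup.induction_on with
        | H a =>
          induction b using QuotientGroup.induction_on with
          | H b =>
            show ((a * b : P) : P ⧸ N) = ((b * a : P) : P ⧸ N)
            rw [QuotientGroup.eq]
            show (a * b)⁻¹ * (b * a) ∈ Q.subgroupOf P
            rw [mem_subgroupOf]
            have h1 := hcomm b.1⁻¹ (inv_mem b.2) a.1⁻¹ (inv_mem a.2)
            have e : (((a * b)⁻¹ * (b * a) : P) : M) = ⁅b.1⁻¹, a.1⁻¹⁆ := by
              rw [commutatorElement_def]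
              show (a.1 * b.1)⁻¹ * (b.1 * a.1) = b.1⁻¹ * a.1⁻¹ * b.1⁻¹⁻¹ * a.1⁻¹⁻¹
              group
            rw [e]
            exact h1 }
  let φ : P →* P ⧸ N := QuotientGroup.mk' N
  have h1 := MonoidHom.transfer_eq_pow φ z key
  have h2 : MonoidHom.transfer φ z = 1 := by
    have := Abelianization.commutator_subset_ker (MonoidHom.transfer φ) hzc
    exact this
  rw [h2] at h1
  have h3 : (⟨z ^ P.index, MonoidHom.transfer_eq_pow_aux z key⟩ : P) ∈ N :=
    (QuotientGroup.eq_one_iff _).1 h1.symm
  rw [mem_subgroupOf] at h3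
  have h4 : z ^ P.index ∈ Q := h3
  apply hzQ
  have hcop : Nat.Coprime P.index p := ((Nat.Prime.coprime_iff_not_dvd hp).2 hidx).symm
  obtain ⟨k, hk⟩ := exists_pow_eq_self_of_coprime (n := P.index) (x := z)
    (hcop.coprime_dvd_right (orderOf_dvd_of_pow_eq_one hzp))
  rw [← hk]
  exact pow_mem h4 k

end FbZ
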