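import Pool.Agent.Lib.MP_fb3619_al.H90.ZDefs

/-! Row AFE of the board for Theorem Z: a transitive affine map of a finite elementary abelian
`p`-group (`p` odd) whose linear part has `p`-power order lives on at most `p` points. -/

namespace FbZ

open Subgroup

universe u

/-- an endomorphism of `p`-power order without nontrivial fixed points on an invariant
subgroup of a group of exponent `p` -/
theorem afe_triv {E : Type u} [CommGroup E] [Finite E] {p k : ℕ} (hp : p.Prime) (α : E →* E)
    (hE : ∀ e : E, e ^ p = 1) (hα : ∀ e : E, (⇑α)^[p ^ k] e = e) (F : Subgroup E)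
    (hF : ∀ e ∈ F, α e ∈ F) (hfix : ∀ e ∈ F, α e = e → e = 1) : Nat.card F = 1 := by
  classical
  have : Fact p.Prime := ⟨hp⟩
  have := Fintype.ofFinite F
  let f : Function.End F := fun x => ⟨α x, hF x x.2⟩
  have h0 : ∀ n : ℕ, ∀ a : F, ((f ^ n) a : E) = (⇑α)^[n] (a : E) := by
    intro n
    induction n with
    | zero => intro a; rfl
    | succ n ih =>
      intro a
      rw [pow_succ, Function.iterate_succ_apply]
      exact ih (f a)
  have h1 : f ^ p ^ k = 1 := by
    funext a
    exact Subtype.ext ((h0 _ a).trans (hα a))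
  have h2 := Equiv.Perm.card_fixedPoints_modEq (p := p) (n := k) h1
  have h3 : Fintype.card (Function.fixedPoints f) = 1 := by
    rw [Fintype.card_eq_one_iff]
    refine ⟨⟨1, Subtype.ext (map_one α)⟩, ?_⟩
    rintro ⟨a, ha⟩
    apply Subtype.ext
    apply Subtype.ext
    exact hfix a a.2 (congrArg Subtype.val ha)
  rw [h3] at h2
  have h4 : IsPGroup p F := fun g => ⟨1, by
    rw [pow_one]
    exact Subtype.ext (hE g)⟩
  obtain ⟨n, hn⟩ := IsPGroup.iff_card.1 h4
  rcases n with _ | n
  · rw [hn, pow_zero]
  · exfalso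
    have h5 : p ∣ Fintype.card F := by
      rw [← Nat.card_eq_fintype_card, hn, pow_succ]
      exact dvd_mul_left _ _
    have h6 : (0 : ℕ) ≡ 1 [MOD p] := ((Nat.modEq_zero_iff_dvd.2 h5).symm).trans h2
    have h7 : p ∣ 1 := (Nat.modEq_zero_iff_dvd).1 h6.symm
    exact hp.one_lt.ne' (Nat.dvd_one.1 h7)

theorem afe_proof : AFEStatement.{u} := by
  intro E _ _ p k α w hp hp2 hE hα ht
  classical
  have hfact : Fact p.Prime := ⟨hp⟩
  let ν : E →* E :=
    { toFun := fun e => α e * e⁻¹
      map_one' := by
        rw [map_one]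
        exact mul_inv_cancel 1
      map_mul' := by
        intro x y
        rw [map_mul, mul_inv]
        exact mul_mul_mul_comm _ _ _ _ }
  have hν : ∀ e, α e = ν e * e := fun e => (inv_mul_cancel_right _ _).symm
  let N : Subgroup E := (ν.comp ν).range
  let π : E →* E ⧸ N := QuotientGroup.mk' N
  have hπ : ∀ x, π (ν (ν x)) = 1 := fun x => (QuotientGroup.eq_one_iff _).2 ⟨x, rfl⟩
  let T : E → E := fun x => α x * w
  have hT1 : ∀ x, π (T x) = π (ν x) * π x * π w := by
    intro x
    change π (α x * w) = _
    rw [hν, map_mul, map_mul]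
  have hT2 : ∀ x, π (ν (T x)) = π (ν x) * π (ν w) := by
    intro x
    change π (ν (α x * w)) = _
    rw [hν, map_mul, map_mul, map_mul, map_mul, hπ, one_mul]
  have hT : ∀ (x : E) (j : ℕ),
      π (T^[j] x) = π x * π (ν x) ^ j * π w ^ j * π (ν w) ^ (j.choose 2) ∧
      π (ν (T^[j] x)) = π (ν x) * π (ν w) ^ j := by
    intro x j
    induction j with
    | zero =>
      refine ⟨?_, ?_⟩
      · rw [Function.iterate_zero, id, pow_zero, pow_zero, Nat.choose_zero_succ, pow_zero,
          mul_one, mul_one, mul_one]
      · rw [Function.iterate_zero, id, pow_zero, mul_one]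
    | succ j ih =>
      rw [Function.iterate_succ_apply']
      refine ⟨?_, ?_⟩
      · rw [hT1, ih.1, ih.2, Nat.choose_succ_succ, Nat.choose_one_right,
          pow_add (π (ν w)) j (j.choose (Nat.succ 1)), pow_succ, pow_succ]
        generalize π x = a
        generalize π (ν x) = b
        generalize π w = c
        generalize π (ν w) ^ j = d
        generalize π (ν w) ^ j.choose (Nat.succ 1) = e
        generalize b ^ j = b'
        generalize c ^ j = c'
        simp only [mul_left_comm, mul_comm]
      · rw [hT2, ih.2, pow_succ, mul_assoc]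
  have hexp : ∀ y : E, π y ^ p = 1 := by
    intro y
    rw [← map_pow, hE, map_one]
  have hp3 : 2 < p := lt_of_le_of_ne hp.two_le (Ne.symm hp2)
  have hTp : ∀ x, π (T^[p] x) = π x := by
    intro x
    obtain ⟨m, hm⟩ := hp.dvd_choose_self two_ne_zero hp3
    rw [(hT x p).1, hexp, hexp, hm, pow_mul, hexp, one_pow, mul_one, mul_one, mul_one]
  have hTq : ∀ q r : ℕ, π (T^[r + p * q] 1) = π (T^[r] 1) := by
    intro q r
    induction q with
    | zero => rw [mul_zero, add_zero]
    | succ q ih =>
      rw [Nat.mul_succ, ← add_assoc, add_comm _ p, Function.iterate_add_apply, hTp, ih]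
  have hcard : N.index ≤ p := by
    have hs : Function.Surjective (fun j : Fin p => π (T^[(j : ℕ)] 1)) := by
      intro a
      obtain ⟨e, rfl⟩ := QuotientGroup.mk'_surjective N a
      obtain ⟨j, hj⟩ := ht e
      refine ⟨⟨j % p, Nat.mod_lt _ hp.pos⟩, ?_⟩
      change π (T^[j % p] 1) = π e
      rw [← hTq (j / p) (j % p), Nat.mod_add_div]
      exact congrArg π hj
    have h := Nat.card_le_card_of_surjective _ hs
    exact h.trans (Nat.card_fin p).le
  have hEp : IsPGroup p E := fun g => ⟨1, by rw [pow_one, hE]⟩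
  let R : Subgroup E := ν.range
  have hNR : N ≤ R := by
    rintro _ ⟨x, rfl⟩
    exact ⟨ν x, rfl⟩
  have hidx : N.relIndex R * R.index = N.index := relIndex_mul_index hNR
  have hRN : R ≤ N := by
    obtain ⟨n, hn⟩ := hEp.index R
    rcases n with _ | n
    · rw [pow_zero] at hn
      have hR : R = ⊤ := index_eq_one.1 hn
      have hs : ∀ x, ∃ y, ν y = x := by
        intro x
        have hx : x ∈ R := by rw [hR]; exact mem_top x
        exact hx
      intro x _
      obtain ⟨y, rfl⟩ := hs x
      obtain ⟨z, rfl⟩ := hs y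
      exact ⟨z, rfl⟩
    · have h1 : p ≤ R.index := by
        rw [hn, pow_succ]
        exact Nat.le_mul_of_pos_left _ (pow_pos hp.pos _)
      have h2 : N.relIndex R ≤ 1 := by
        by_contra hc
        push Not at hc
        have h3 : 2 * p ≤ N.relIndex R * R.index := Nat.mul_le_mul hc h1
        rw [hidx] at h3
        have := hp.pos
        omega
      have h3 : N.relIndex R ≠ 0 := by
        intro h0
        rw [h0, zero_mul] at hidx
        exact index_ne_zero_of_finite hidx.symm
      exact relIndex_eq_one.1 (by omega)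
  have hRmap : ∀ e ∈ R, ν e ∈ R := fun e _ => ⟨e, rfl⟩
  have hinj : Function.Injective (fun x : R => (⟨ν x, hRmap x x.2⟩ : R)) := by
    rw [Finite.injective_iff_surjective]
    rintro ⟨x, hx⟩
    obtain ⟨y, hy⟩ := hRN hx
    exact ⟨⟨ν y, ⟨y, rfl⟩⟩, Subtype.ext hy⟩
  have hfix : ∀ e ∈ R, α e = e → e = 1 := by
    intro e he h
    have h1 : ν e = 1 := by
      change α e * e⁻¹ = 1
      rw [h, mul_inv_cancel]
    have h2 : (⟨e, he⟩ : R) = 1 := by
      apply hinj
      apply Subtype.ext
      change ν e = ν 1
      rw [h1, map_one]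
    exact congrArg Subtype.val h2
  have hRα : ∀ e ∈ R, α e ∈ R := by
    intro e he
    rw [hν]
    exact R.mul_mem (hRmap e he) he
  have hR1 : Nat.card R = 1 := afe_triv hp α hE hα R hRα hfix
  have h1 : Nat.card R * R.index = Nat.card E := card_mul_index R
  rw [hR1, one_mul] at h1
  rw [← h1]
  have h2 : R = N := le_antisymm hRN hNR
  rw [h2]
  exact hcard

end FbZ
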