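import Pool.Agent.Lib.MP_fb3619_al.H90.ZDefs

/-! Theorem Z, row AFF ((0.7) of finding 4602). -/

namespace FbZ

open Subgroup
open scoped commutatorElement

universe u

theorem aff_proof (h : AFEStatement.{u}) : AFFStatement.{u} := by
  classical
  intro M _ _ p P W K C S hp hp2 hWP hCP hSP hKW hWn hKn hWp hWc hCc hCp hCW hT
  -- `U = K (S ∩ W)`
  set U : Subgroup M := K ⊔ (S ⊓ W) with hU
  have hKU : K ≤ U := le_sup_left
  have hSU : S ⊓ W ≤ U := le_sup_right
  have hUW : U ≤ W := sup_le hKW inf_le_right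
  -- `S` and `W` normalise `U`
  have hUS : ∀ σ ∈ S, ∀ x ∈ U, σ * x * σ⁻¹ ∈ U := by
    intro σ hσ x hx
    have h1 : U ≤ U.comap (MulAut.conj σ).toMonoidHom := by
      refine sup_le ?_ ?_
      · intro k hk
        exact hKU (hKn σ (hSP hσ) k hk)
      · intro y hy
        exact hSU ⟨S.mul_mem (S.mul_mem hσ hy.1) (S.inv_mem hσ), hWn σ (hSP hσ) y hy.2⟩
    exact h1 hx
  have hUw : ∀ w ∈ W, ∀ x ∈ U, w * x * w⁻¹ ∈ U := by
    intro w hw x hx
    have h1 := hWc w hw x (hUW hx)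
    have e : w * x * w⁻¹ = ⁅w, x⁆ * x := by rw [commutatorElement_def]; group
    rw [e]
    exact U.mul_mem (hKU h1) hx
  -- the cyclic group `C₀`
  set C0 : Subgroup M := C ⊓ (S ⊔ W) with hC0
  have hcyc : IsCyclic C0 := by
    have h1 : IsCyclic (C0.subgroupOf C) := inferInstance
    exact isCyclic_of_surjective (Subgroup.subgroupOfEquivOfLe (inf_le_left : C0 ≤ C)).toMonoidHom
      (Subgroup.subgroupOfEquivOfLe (inf_le_left : C0 ≤ C)).surjective
  obtain ⟨c0', hc0'⟩ := hcyc.exists_generator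
  set c0 : M := (c0' : M) with hc0
  have hc0C : c0 ∈ C := c0'.2.1
  -- elements of `S W`
  have hSW : ∀ x ∈ S ⊔ W, ∃ s ∈ S, ∃ w ∈ W, x = s * w := by
    have hle : S ⊔ W ≤ (
        { carrier := {x | ∃ s ∈ S, ∃ w ∈ W, x = s * w}
          mul_mem' := by
            rintro _ _ ⟨s, hs, w, hw, rfl⟩ ⟨s', hs', w', hw', rfl⟩
            refine ⟨s * s', S.mul_mem hs hs', (s'⁻¹ * w * s') * w', ?_, by group⟩
            have h1 := hWn s'⁻¹ (hSP (S.inv_mem hs')) w hw
            rw [inv_inv] at h1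
            exact W.mul_mem h1 hw'
          one_mem' := ⟨1, S.one_mem, 1, W.one_mem, by group⟩
          inv_mem' := by
            rintro _ ⟨s, hs, w, hw, rfl⟩
            refine ⟨s⁻¹, S.inv_mem hs, s * w⁻¹ * s⁻¹, hWn s (hSP hs) _ (W.inv_mem hw), by group⟩ :
          Subgroup M }) := by
      refine sup_le ?_ ?_
      · intro s hs
        exact ⟨s, hs, 1, W.one_mem, by group⟩
      · intro w hw
        exact ⟨1, S.one_mem, w, hw, by group⟩
    intro x hx
    exact hle hx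
  obtain ⟨σ, hσ, w1, hw1, hσw⟩ := hSW c0 c0'.2.2
  -- `σ = c₀ w₀`
  set w0 : M := w1⁻¹ with hw0
  have hw0W : w0 ∈ W := W.inv_mem hw1
  have hσe : σ = c0 * w0 := by rw [hσw, hw0]; group
  have hU0 : ∀ x ∈ U, c0⁻¹ * x * c0 ∈ U := by
    intro x hx
    have h1 := hUS σ⁻¹ (S.inv_mem hσ) x hx
    have h2 := hUw w0 hw0W _ h1
    have e : w0 * (σ⁻¹ * x * σ⁻¹⁻¹) * w0⁻¹ = c0⁻¹ * x * c0 := by rw [hσe]; group
    rwa [e] at h2
  have hW0 : ∀ x ∈ W, c0⁻¹ * x * c0 ∈ W := by
    intro x hx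
    have h1 := hWn c0⁻¹ (hCP (C.inv_mem hc0C)) x hx
    rwa [inv_inv] at h1
  -- the quotient
  set D : Subgroup W := U.subgroupOf W with hD
  have hDn : D.Normal := by
    refine ⟨fun x hx y => ?_⟩
    rw [hD, Subgroup.mem_subgroupOf] at hx ⊢
    exact hUw y y.2 x hx
  let iC : CommGroup (W ⧸ D) :=
    { (inferInstance : Group (W ⧸ D)) with
      mul_comm := by
        intro a b
        induction a using QuotientGroup.induction_on with
        | H x =>
        induction b using QuotientGroup.induction_on with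
        | H y =>
        show ((x * y : W) : W ⧸ D) = ((y * x : W) : W ⧸ D)
        rw [QuotientGroup.eq, hD, Subgroup.mem_subgroupOf]
        have h1 := hWc (y : M)⁻¹ (W.inv_mem y.2) (x : M)⁻¹ (W.inv_mem x.2)
        have e : (((x * y)⁻¹ * (y * x) : W) : M) = ⁅(y : M)⁻¹, (x : M)⁻¹⁆ := by
          rw [commutatorElement_def]; push_cast; group
        rw [e]
        exact hKU h1 }
  let φ : W →* W :=
    { toFun := fun x => ⟨c0⁻¹ * x * c0, hW0 x x.2⟩
      map_one' := by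
        apply Subtype.ext
        show c0⁻¹ * ((1 : W) : M) * c0 = 1
        push_cast; group
      map_mul' := by
        intro x y
        apply Subtype.ext
        show c0⁻¹ * ((x * y : W) : M) * c0 = (c0⁻¹ * x * c0) * (c0⁻¹ * y * c0)
        push_cast; group }
  have hφ : D ≤ D.comap φ := by
    intro x hx
    rw [Subgroup.mem_comap, hD, Subgroup.mem_subgroupOf]
    rw [hD, Subgroup.mem_subgroupOf] at hx
    exact hU0 x hx
  let α : (W ⧸ D) →* (W ⧸ D) := QuotientGroup.map D D φ hφ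
  have hα : ∀ x : W, α (x : W ⧸ D) = ((φ x : W) : W ⧸ D) := fun x => rfl
  obtain ⟨k, hk⟩ := hCp ⟨c0, hc0C⟩
  have hk' : c0 ^ p ^ k = 1 := by
    have := congrArg Subtype.val hk
    simpa using this
  -- iterates of `α`
  have hit : ∀ n : ℕ, ∀ x : W, ∃ hx : (c0 ^ n)⁻¹ * (x : M) * c0 ^ n ∈ W,
      (⇑α)^[n] (x : W ⧸ D) = ((⟨(c0 ^ n)⁻¹ * (x : M) * c0 ^ n, hx⟩ : W) : W ⧸ D) := by
    intro n x
    induction n with
    | zero =>
      have e : (c0 ^ 0)⁻¹ * (x : M) * c0 ^ 0 = x := by rw [pow_zero]; group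
      refine ⟨by rw [e]; exact x.2, ?_⟩
      rw [Function.iterate_zero_apply]
      congr 1
      exact Subtype.ext e.symm
    | succ n ih =>
      obtain ⟨hx, ih⟩ := ih
      have e : (c0 ^ (n + 1))⁻¹ * (x : M) * c0 ^ (n + 1) =
          c0⁻¹ * ((c0 ^ n)⁻¹ * (x : M) * c0 ^ n) * c0 := by rw [pow_succ]; group
      refine ⟨by rw [e]; exact hW0 _ hx, ?_⟩
      rw [Function.iterate_succ_apply', ih, hα]
      congr 1
      exact Subtype.ext e.symm
  -- the orbit of `1`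
  have horb : ∀ j : ℕ, ∃ hv : (c0 ^ j)⁻¹ * σ ^ j ∈ W,
      (fun x => α x * ((⟨w0, hw0W⟩ : W) : W ⧸ D))^[j] 1 =
        ((⟨(c0 ^ j)⁻¹ * σ ^ j, hv⟩ : W) : W ⧸ D) := by
    intro j
    induction j with
    | zero =>
      have e : (c0 ^ 0)⁻¹ * σ ^ 0 = 1 := by rw [pow_zero, pow_zero]; group
      refine ⟨by rw [e]; exact W.one_mem, ?_⟩
      rw [Function.iterate_zero_apply]
      symm
      have e2 : (⟨(c0 ^ 0)⁻¹ * σ ^ 0, by rw [e]; exact W.one_mem⟩ : W) = 1 := Subtype.ext e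
      rw [e2]
      rfl
    | succ j ih =>
      obtain ⟨hv, ih⟩ := ih
      have e : (c0 ^ (j + 1))⁻¹ * σ ^ (j + 1) = c0⁻¹ * ((c0 ^ j)⁻¹ * σ ^ j) * c0 * w0 := by
        have e1 : σ ^ (j + 1) = σ ^ j * (c0 * w0) := by rw [pow_succ, ← hσe]
        rw [e1, pow_succ]; group
      refine ⟨by rw [e]; exact W.mul_mem (hW0 _ hv) hw0W, ?_⟩
      rw [Function.iterate_succ_apply', ih]
      show α _ * _ = _
      rw [hα]
      have e3 : ((φ ⟨(c0 ^ j)⁻¹ * σ ^ j, hv⟩ : W) : W ⧸ D) * ((⟨w0, hw0W⟩ : W) : W ⧸ D) =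
          ((φ ⟨(c0 ^ j)⁻¹ * σ ^ j, hv⟩ * ⟨w0, hw0W⟩ : W) : W ⧸ D) := rfl
      rw [e3]
      congr 1
      exact Subtype.ext e.symm
  have hres := h (W ⧸ D) p k α ((⟨w0, hw0W⟩ : W) : W ⧸ D) hp hp2
    (by
      intro e
      induction e using QuotientGroup.induction_on with
      | H x =>
      have h1 : ((x : W ⧸ D)) ^ p = ((x ^ p : W) : W ⧸ D) := rfl
      rw [h1]
      refine (QuotientGroup.eq_one_iff _).2 ?_
      rw [hD, Subgroup.mem_subgroupOf]
      have h2 := hWp (x : M) x.2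
      have e1 : ((x ^ p : W) : M) = (x : M) ^ p := by push_cast; rfl
      rw [e1]
      exact hKU h2)
    (by
      intro e
      induction e using QuotientGroup.induction_on with
      | H x =>
      obtain ⟨hx, h1⟩ := hit (p ^ k) x
      rw [h1]
      congr 1
      apply Subtype.ext
      show (c0 ^ p ^ k)⁻¹ * (x : M) * c0 ^ p ^ k = x
      rw [hk']; group)
    (by
      intro e
      induction e using QuotientGroup.induction_on with
      | H w =>
      obtain ⟨c, hc, hcw⟩ := hT (w : M) w.2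
      have hc' : c ∈ C0 := by
        refine ⟨hc, ?_⟩
        have e1 : c = (c * w) * (w : M)⁻¹ := by group
        rw [e1]
        exact Subgroup.mul_mem _ ((le_sup_left : S ≤ S ⊔ W) hcw)
          ((le_sup_right : W ≤ S ⊔ W) (W.inv_mem w.2))
      obtain ⟨j, hj⟩ : ∃ j : ℕ, c0 ^ j = c := by
        have h1 := hc0' ⟨c, hc'⟩
        rw [← mem_powers_iff_mem_zpowers] at h1
        obtain ⟨j, hj⟩ := h1
        refine ⟨j, ?_⟩
        have := congrArg Subtype.val hj
        simpa using this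
      refine ⟨j, ?_⟩
      obtain ⟨hv, h1⟩ := horb j
      rw [h1, QuotientGroup.eq, hD, Subgroup.mem_subgroupOf]
      refine hSU ?_
      have e1 : (((⟨(c0 ^ j)⁻¹ * σ ^ j, hv⟩ : W)⁻¹ * w : W) : M) = (σ ^ j)⁻¹ * (c * w) := by
        rw [← hj]; push_cast; group
      refine ⟨?_, ((⟨(c0 ^ j)⁻¹ * σ ^ j, hv⟩ : W)⁻¹ * w : W).2⟩
      rw [e1]
      exact S.mul_mem (S.inv_mem (S.pow_mem hσ j)) hcw)
  have e : U.relIndex W = Nat.card (W ⧸ D) := rfl
  rw [e]
  exact hres

end FbZ
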