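import Pool.Agent.Lib.MP_fb3619_al.H90.ZDefs

/-! Theorem Z (finding 4602), fact (0.10): class at most two.

No quotients of the action are needed: `K` is a normal subgroup with `γ₃ / K` central of exponent
`p`, and `γ₃ ≤ K` only if `γ₃ = 1`. -/

namespace FbZ

open Subgroup
open scoped commutatorElement

universe u

namespace C2

section gen

variable {G : Type u} [Group G]

/-- being central modulo a normal subgroup -/
theorem cc_iff {K : Subgroup G} [K.Normal] {a w : G} :
    ⁅a, w⁆ ∈ K ↔ Commute (QuotientGroup.mk' K a) (QuotientGroup.mk' K w) := by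
  rw [← commutatorElement_eq_one_iff_commute, ← map_commutatorElement, ← MonoidHom.mem_ker,
    QuotientGroup.ker_mk']

theorem mem_iff {K : Subgroup G} [K.Normal] {a : G} : a ∈ K ↔ QuotientGroup.mk' K a = 1 := by
  rw [← MonoidHom.mem_ker, QuotientGroup.ker_mk']

/-- the top central factor of exponent `p` -/
theorem exK [Finite G] {p : ℕ} (hp : p.Prime) (hG : IsPGroup p G) (T : Subgroup G) [T.Normal]
    (hT : T ≠ ⊥) : ∃ K : Subgroup G, K.Normal ∧ (∀ a ∈ T, ∀ w : G, ⁅a, w⁆ ∈ K) ∧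
      (∀ a ∈ T, a ^ p ∈ K) ∧ ¬ T ≤ K := by
  have : Fact p.Prime := ⟨hp⟩
  set L : Subgroup G := ⁅T, (⊤ : Subgroup G)⁆ with hL
  set π := QuotientGroup.mk' L with hπ
  have hc : ∀ a ∈ T, ∀ w : G, Commute (π a) (π w) := fun a ha w =>
    cc_iff.1 (commutator_mem_commutator ha (mem_top w))
  let K : Subgroup G :=
    { carrier := {x | ∃ y ∈ T, π x = (π y) ^ p}
      one_mem' := ⟨1, one_mem _, by rw [map_one, one_pow]⟩
      mul_mem' := by
        rintro a b ⟨y, hy, h1⟩ ⟨y', hy', h2⟩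
        refine ⟨y * y', mul_mem hy hy', ?_⟩
        rw [map_mul, h1, h2, map_mul, (hc y hy y').mul_pow]
      inv_mem' := by
        rintro a ⟨y, hy, h1⟩
        refine ⟨y⁻¹, inv_mem hy, ?_⟩
        rw [map_inv, h1, map_inv, inv_pow] }
  have hK : ∀ x, x ∈ K ↔ ∃ y ∈ T, π x = (π y) ^ p := fun x => Iff.rfl
  refine ⟨K, ⟨?_⟩, ?_, ?_, ?_⟩
  · rintro x ⟨y, hy, h1⟩ w
    refine ⟨y, hy, ?_⟩
    rw [map_mul, map_mul, map_inv, h1]
    have h2 : Commute ((π y) ^ p) (π w) := (hc y hy w).pow_left p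
    rw [← h2.eq, mul_inv_cancel_right]
  · intro a ha w
    refine ⟨1, one_mem _, ?_⟩
    rw [map_one, one_pow, ← mem_iff]
    exact commutator_mem_commutator ha (mem_top w)
  · intro a ha
    exact ⟨a, ha, map_pow π a p⟩
  · intro hle
    -- every element is a `p ^ n`-th power modulo `L`
    have h1 : ∀ n : ℕ, ∀ x ∈ T, ∃ y ∈ T, π x = (π y) ^ (p ^ n) := by
      intro n
      induction n with
      | zero => intro x hx; exact ⟨x, hx, by rw [pow_zero, pow_one]⟩
      | succ n ih =>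
        intro x hx
        obtain ⟨y, hy, h2⟩ := ih x hx
        obtain ⟨y', hy', h3⟩ := hle hy
        refine ⟨y', hy', ?_⟩
        rw [h2, h3, ← pow_mul, pow_succ']
    obtain ⟨n, hn⟩ := IsPGroup.iff_card.1 hG
    have h2 : T ≤ L := by
      intro x hx
      obtain ⟨y, hy, h3⟩ := h1 n x hx
      rw [mem_iff, h3, ← map_pow, ← hn, pow_card_eq_one', map_one]
    have h3 : ∀ n : ℕ, T ≤ Subgroup.lowerCentralSeries (⊤ : Subgroup G) n := by
      intro n
      induction n with
      | zero => exact le_top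
      | succ n ih =>
        rw [Subgroup.lowerCentralSeries_succ]
        exact h2.trans (commutator_mono ih le_top)
    obtain ⟨m, hm⟩ := Subgroup.nilpotent_iff_lowerCentralSeries.1 hG.isNilpotent
    exact hT (le_bot_iff.1 (hm ▸ h3 m))

/-- a central multiplicator -/
theorem pw {n w c : G} (h : n * w = c * w * n) (h1 : Commute c n) (k : ℕ) :
    n ^ k * w = c ^ k * w * n ^ k := by
  induction k with
  | zero => simp
  | succ k ih =>
    have h2 : Commute (c ^ k) n := h1.pow_left k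
    calc n ^ (k + 1) * w = n * (n ^ k * w) := by rw [pow_succ', mul_assoc]
      _ = n * c ^ k * w * n ^ k := by rw [ih]; simp only [mul_assoc]
      _ = c ^ k * (n * w) * n ^ k := by rw [← h2.eq]; simp only [mul_assoc]
      _ = c ^ k * c * w * (n * n ^ k) := by rw [h]; simp only [mul_assoc]
      _ = c ^ (k + 1) * w * n ^ (k + 1) := by rw [pow_succ, pow_succ' n]

/-- in class two inverting both entries does not change a commutator -/
theorem cinv {x y : G} (h : ∀ w : G, Commute ⁅x, y⁆ w) : ⁅x⁻¹, y⁻¹⁆ = ⁅x, y⁆ := by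
  have h1 : x * y = ⁅x, y⁆ * (y * x) := by rw [commutatorElement_def]; group
  have h2 : ⁅x⁻¹, y⁻¹⁆ = x⁻¹ * y⁻¹ * (x * y) := by rw [commutatorElement_def]; group
  rw [h2, h1, ← mul_assoc, ← (h (x⁻¹ * y⁻¹)).eq]
  group

theorem cmul {x y c d : G} (hc : ∀ w : G, Commute c w) (hd : ∀ w : G, Commute d w) :
    ⁅x * c, y * d⁆ = ⁅x, y⁆ := by
  rw [commutatorElement_def, commutatorElement_def, mul_inv_rev, mul_inv_rev]
  have h1 : x * c * (y * d) = (x * y) * (c * d) := by
    rw [mul_assoc x c, (hc (y * d)).eq]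
    rw [mul_assoc y d c, ← (hc d).eq]
    simp only [mul_assoc]
  have h2 : x * c * (y * d) * (c⁻¹ * x⁻¹) * (d⁻¹ * y⁻¹)
      = (x * y) * (c * d) * (c⁻¹ * (x⁻¹ * d⁻¹) * y⁻¹) := by
    rw [h1]; simp only [mul_assoc]
  rw [h2, ← ((hd x⁻¹).inv_left).eq]
  have h3 : (x * y) * (c * d) * (c⁻¹ * (d⁻¹ * x⁻¹) * y⁻¹)
      = (x * y) * (c * d * c⁻¹ * d⁻¹) * (x⁻¹ * y⁻¹) := by simp only [mul_assoc]
  rw [h3, (hc d).eq]
  group

end gen

section main

variable {W : Type u} [Group W] {s g : W ≃* W} {p q : ℕ}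

theorem comm_le {V : Type u} [Group V] {S : Subgroup V} (h : ∀ x y : V, ⁅x, y⁆ ∈ S) :
    commutator V ≤ S := by
  rw [commutator_def, commutator_le]
  exact fun x _ y _ => h x y

/-- the third term of the lower central series -/
abbrev G3 (W : Type u) [Group W] : Subgroup W := ⁅commutator W, (⊤ : Subgroup W)⁆

theorem g3_inv [Finite W] : AInv s g (G3 W) :=
  AInv.commutator (AInv.commutator AInv.top AInv.top) AInv.top

theorem ab_inv (gen : closure {x : W | s x = x⁻¹} = ⊤) (x : W) : x * s x ∈ commutator W := by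
  have h0 := MonoidHom.eqOn_closure (f := (Abelianization.of (G := W)).comp (s : W →* W))
    (g := (Abelianization.of (G := W))⁻¹) (s := {x : W | s x = x⁻¹}) (by
      intro y hy
      show Abelianization.of (s y) = (Abelianization.of y)⁻¹
      rw [show s y = y⁻¹ from hy, map_inv])
  have hx : x ∈ closure {x : W | s x = x⁻¹} := by rw [gen]; exact mem_top x
  have h1 : Abelianization.of (s x) = (Abelianization.of x)⁻¹ := h0 hx
  rw [← Abelianization.ker_of, MonoidHom.mem_ker, map_mul, h1, mul_inv_cancel]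

theorem fix_mem [Finite W] (odd : Odd (Nat.card W)) (gen : closure {x : W | s x = x⁻¹} = ⊤)
    {n : W} (hn : s n = n) : n ∈ commutator W := by
  have h := ab_inv gen n
  rw [hn] at h
  have h1 := rt_mem h
  rwa [rt_sq odd] at h1

theorem s_triv (gen : closure {x : W | s x = x⁻¹} = ⊤) :
    ∀ a ∈ commutator W, a⁻¹ * s a ∈ G3 W := by
  set τ := QuotientGroup.mk' (G3 W) with hτ
  have hc : ∀ a ∈ commutator W, ∀ v : W ⧸ G3 W, Commute (τ a) v := by
    intro a ha v
    obtain ⟨w, rfl⟩ := QuotientGroup.mk'_surjective (G3 W) v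
    exact cc_iff.1 (commutator_mem_commutator ha (mem_top w))
  have h1 : commutator W ≤ (τ.comp (s : W →* W)).eqLocus τ := by
    refine comm_le fun x y => ?_
    show τ (s ⁅x, y⁆) = τ ⁅x, y⁆
    have hx : τ (s x) = (τ x)⁻¹ * τ (x * s x) := by rw [map_mul]; group
    have hy : τ (s y) = (τ y)⁻¹ * τ (y * s y) := by rw [map_mul]; group
    rw [map_commutatorElement, map_commutatorElement, map_commutatorElement, hx, hy,
      cmul (hc _ (ab_inv gen x)) (hc _ (ab_inv gen y))]
    apply cinv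
    intro w
    rw [← map_commutatorElement]
    exact hc _ (commutator_mem_commutator (mem_top x) (mem_top y)) w
  intro a ha
  have h2 : τ (s a) = τ a := h1 ha
  rw [mem_iff, map_mul, map_inv, ← hτ, h2, inv_mul_cancel]

end main

end C2

open C2 in
theorem c2_proof (ih : IHStatement.{u}) : C2Statement.{u} := by
  intro W _ _ s g p q A hp hp2 hpq hW hcyc gen
  have : Fact p.Prime := ⟨hp⟩
  -- it suffices that the third term is trivial
  suffices h3 : G3 W = ⊥ by
    constructor
    · intro a ha w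
      have h4 : ⁅a, w⁆ ∈ G3 W := commutator_mem_commutator ha (mem_top w)
      rw [h3, mem_bot, commutatorElement_eq_one_iff_commute] at h4
      exact h4.eq
    · intro n
      refine ⟨fun hn => fix_mem A.odd gen hn, fun hn => ?_⟩
      have h4 := s_triv gen n hn
      rw [h3, mem_bot, inv_mul_eq_one] at h4
      exact h4.symm
  by_contra hne
  obtain ⟨K, hKn, hK2, hK3, hK4⟩ := exK hp hW (G3 W) hne
  -- a generator of the fixed points
  obtain ⟨⟨n0, hn0⟩, hgen⟩ := hcyc.exists_generator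
  have hn0s : s n0 = n0 := hn0
  have hn0g : g n0 = n0 := (A.fx n0).1 hn0s
  have hn0c : n0 ∈ commutator W := fix_mem A.odd gen hn0s
  have hdec : ∀ a ∈ commutator W, ∃ k : ℕ, ∃ y ∈ G3 W, a = n0 ^ k * y := by
    intro a ha
    obtain ⟨h, hh, hfix⟩ := coset_fix Nat.prime_two A.n2 A.two (G3 W) (g3_inv (g := g)).1
      (s_triv gen a ha)
    obtain ⟨k, hk⟩ := mem_powers_iff_mem_zpowers.2 (hgen ⟨a * h, hfix⟩)
    have hk' : n0 ^ k = a * h := congrArg Subtype.val hk
    exact ⟨k, h⁻¹, inv_mem hh, by rw [hk', mul_inv_cancel_right]⟩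
  -- the subgroup `D`
  set τ := QuotientGroup.mk' (G3 W) with hτ
  set D : Subgroup W := (zpowers ((τ n0) ^ p)).comap τ with hD
  have hDm : ∀ d ∈ D, ∃ k : ℕ, ∃ y ∈ G3 W, d = (n0 ^ p) ^ k * y := by
    intro d hd
    obtain ⟨k, hk⟩ := mem_powers_iff_mem_zpowers.2 (mem_comap.1 hd)
    refine ⟨k, ((n0 ^ p) ^ k)⁻¹ * d, ?_, by group⟩
    have hk' : (τ n0 ^ p) ^ k = τ d := hk
    rw [mem_iff, map_mul, map_inv, ← hτ, map_pow, map_pow, hk', inv_mul_cancel]
  have hDg3 : G3 W ≤ D := by
    intro y hy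
    rw [hD, mem_comap, mem_iff.1 hy]
    exact one_mem _
  have hDp : n0 ^ p ∈ D := by
    rw [hD, mem_comap, map_pow]
    exact mem_zpowers _
  have hDc : D ≤ commutator W := by
    intro d hd
    obtain ⟨k, y, hy, rfl⟩ := hDm d hd
    exact mul_mem (pow_mem (pow_mem hn0c p) k) (commutator_le_left _ _ hy)
  have hDn : D.Normal := by
    constructor
    intro d hd w
    have h1 : w * d * w⁻¹ = ⁅w, d⁆ * d := by rw [commutatorElement_def]; group
    rw [h1]
    refine mul_mem (hDg3 ?_) hd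
    rw [← inv_mem_iff, commutatorElement_inv]
    exact commutator_mem_commutator (hDc hd) (mem_top w)
  have hDg : ∀ d ∈ D, g d ∈ D := by
    intro d hd
    obtain ⟨k, y, hy, rfl⟩ := hDm d hd
    rw [map_mul, map_pow, map_pow, hn0g]
    exact mul_mem (pow_mem hDp k) (hDg3 ((g3_inv (s := s)).2 y hy))
  have hcD : ∀ a ∈ commutator W, ∀ w : W, ⁅a, w⁆ ∈ D := fun a ha w =>
    hDg3 (commutator_mem_commutator ha (mem_top w))
  -- central modulo `K`
  set ρ := QuotientGroup.mk' K with hρ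
  have hρ3 : ∀ a ∈ G3 W, ∀ w, Commute (ρ a) (ρ w) := fun a ha w => cc_iff.1 (hK2 a ha w)
  have hρD : ∀ d ∈ D, ∀ w, Commute (ρ d) (ρ w) := by
    intro d hd w
    obtain ⟨k, y, hy, rfl⟩ := hDm d hd
    rw [map_mul, map_pow, map_pow]
    refine Commute.mul_left (Commute.pow_left ?_ k) (hρ3 y hy w)
    have hc : ⁅n0, w⁆ ∈ G3 W := commutator_mem_commutator hn0c (mem_top w)
    have h1 : ρ n0 * ρ w = ρ ⁅n0, w⁆ * ρ w * ρ n0 := by
      rw [← map_mul, ← map_mul, ← map_mul, commutatorElement_def]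
      congr 1
      group
    have h2 := pw h1 (hρ3 _ hc n0) p
    have h3 : (ρ ⁅n0, w⁆) ^ p = 1 := by
      rw [← map_pow, hρ, ← mem_iff]
      exact hK3 _ hc
    rw [h3, one_mul] at h2
    exact h2
  have hfin : (∀ a ∈ commutator W, ∀ w, Commute (ρ a) (ρ w)) → False := by
    intro h
    apply hK4
    rw [commutator_le]
    intro a ha w _
    exact cc_iff.2 (h a ha w)
  -- the subgroups `X x`
  set δ := QuotientGroup.mk' D with hδ
  have hδc : ∀ a ∈ commutator W, ∀ w, Commute (δ a) (δ w) := fun a ha w =>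
    cc_iff.1 (hcD a ha w)
  have hcm : ∀ a b : W, ⁅a, b⁆ ∈ commutator W := fun a b =>
    commutator_mem_commutator (mem_top a) (mem_top b)
  let f : W → W →* W ⧸ D := fun x =>
    { toFun := fun w => δ ⁅w, x⁆
      map_one' := by rw [commutatorElement_one_left, map_one]
      map_mul' := by
        intro a b
        have h1 : ⁅a * b, x⁆ = a * ⁅b, x⁆ * a⁻¹ * ⁅a, x⁆ := by
          rw [commutatorElement_def, commutatorElement_def, commutatorElement_def]; group
        have h2 : δ (a * ⁅b, x⁆ * a⁻¹) = δ ⁅b, x⁆ := by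
          rw [map_mul, map_mul, map_inv, ← (hδc _ (hcm b x) a).eq, mul_inv_cancel_right]
        rw [h1, map_mul, h2]
        exact hδc _ (hcm b x) _ }
  have hf : ∀ x w, w ∈ (f x).ker ↔ ⁅w, x⁆ ∈ D := by
    intro x w
    rw [MonoidHom.mem_ker]
    show δ ⁅w, x⁆ = 1 ↔ _
    rw [hδ, ← mem_iff]
  have hidx : ∀ x, (f x).ker.index ≤ p := by
    intro x
    rw [index_ker]
    have h1 : (f x).range ≤ zpowers (δ n0) := by
      rintro _ ⟨w, rfl⟩
      obtain ⟨k, y, hy, hk⟩ := hdec _ (hcm w x)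
      show δ ⁅w, x⁆ ∈ _
      rw [hk, map_mul, map_pow, mem_iff.1 (hDg3 hy), mul_one]
      exact pow_mem (mem_zpowers _) k
    have h2 : orderOf (δ n0) ∣ p := by
      apply orderOf_dvd_of_pow_eq_one
      rw [← map_pow, hδ, ← mem_iff]
      exact hDp
    calc Nat.card (f x).range ≤ Nat.card (zpowers (δ n0)) := card_le_of_le h1
      _ = orderOf (δ n0) := Nat.card_zpowers _
      _ ≤ p := Nat.le_of_dvd hp.pos h2
  by_cases hall : ∀ x w : W, ⁅x, w⁆ ∈ D
  · apply hfin
    intro a ha w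
    refine hρD a ?_ w
    have h1 : commutator W ≤ D := comm_le hall
    exact h1 ha
  by_cases hx : ∃ x, ∀ a ∈ (f x).ker, ∀ b ∈ (f x).ker, ⁅a, b⁆ ∈ D
  · -- the lemma IH
    obtain ⟨x, hx⟩ := hx
    refine ih W g p q D (f x).ker n0 hp hp2 A.qp hpq hW A.gq hDn hDg ?_ hDp hcD hx (hidx x) ?_ ?_
    · intro a ha
      obtain ⟨k, y, hy, rfl⟩ := hdec a ha
      exact ⟨k, by rw [inv_mul_cancel_left]; exact hDg3 hy⟩
    · intro t ht
      -- the radical
      let R : Subgroup W := (center (W ⧸ D)).comap δ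
      have hR : ∀ r, r ∈ R ↔ ∀ w, ⁅r, w⁆ ∈ D := by
        intro r
        rw [mem_comap, mem_center_iff]
        constructor
        · intro h w
          rw [cc_iff, ← hδ]
          exact (h (δ w)).symm
        · intro h v
          obtain ⟨w, rfl⟩ := QuotientGroup.mk'_surjective D v
          exact (cc_iff.1 (h w)).eq.symm
      have hRg : ∀ r ∈ R, g r ∈ R := by
        intro r hr
        rw [hR] at hr ⊢
        intro w
        obtain ⟨w, rfl⟩ := g.surjective w
        rw [← map_commutatorElement]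
        exact hDg _ (hr w)
      obtain ⟨h, hh, hfix⟩ := coset_fix A.qp A.qn A.gq R hRg ((hR _).2 ht)
      have h1 : t * h ∈ R := by
        rw [hR]
        exact hcD _ (fix_mem A.odd gen ((A.fx _).2 hfix))
      rw [← hR]
      have h2 := mul_mem h1 (inv_mem hh)
      rwa [mul_inv_cancel_right] at h2
    · push Not at hall
      exact hall
  · push Not at hx
    apply hfin
    intro a ha w
    obtain ⟨k, y, hy, rfl⟩ := hdec a ha
    rw [map_mul, map_pow]
    refine Commute.mul_left (Commute.pow_left ?_ k) (hρ3 y hy w)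
    -- `n0` commutes with `w` modulo `K`
    obtain ⟨a, ha, b, hb, hab⟩ := hx w
    have hcon : ∀ a ∈ (f w).ker, ∃ c ∈ D, w * a * w⁻¹ = a * c := by
      intro a ha
      refine ⟨⁅a⁻¹, w⁆, (hf w _).1 (inv_mem ha), ?_⟩
      rw [commutatorElement_def]; group
    obtain ⟨c, hc, h1⟩ := hcon a ha
    obtain ⟨d, hd, h2⟩ := hcon b hb
    have hcen : ∀ c ∈ D, ∀ v : W ⧸ K, Commute (ρ c) v := by
      intro c hc v
      obtain ⟨u, rfl⟩ := QuotientGroup.mk'_surjective K v
      exact hρD c hc u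
    have h3 : ρ w * ρ ⁅a, b⁆ * (ρ w)⁻¹ = ρ ⁅a, b⁆ := by
      rw [← map_inv, ← map_mul, ← map_mul, conjugate_commutatorElement, h1, h2,
        map_commutatorElement, map_commutatorElement, map_mul, map_mul,
        cmul (hcen c hc) (hcen d hd)]
    have h4 : Commute (ρ ⁅a, b⁆) (ρ w) := by
      rw [mul_inv_eq_iff_eq_mul] at h3
      exact h3.symm
    obtain ⟨l, z, hz, hl⟩ := hdec _ (hcm a b)
    have h5 : Commute ((ρ n0) ^ l) (ρ w) := by
      have e : (ρ n0) ^ l = ρ ⁅a, b⁆ * ρ z⁻¹ := by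
        rw [hl, ← map_pow, ← map_mul, mul_inv_cancel_right]
      rw [e]
      exact h4.mul_left (hρ3 _ (inv_mem hz) w)
    have h6 : ¬ p ∣ l := by
      rintro ⟨m, rfl⟩
      apply hab
      rw [hl, pow_mul]
      exact mul_mem (pow_mem hDp m) (hDg3 hz)
    obtain ⟨e, he⟩ := IsPGroup.iff_orderOf.1 hW n0
    have h7 : l.Coprime (orderOf n0) := by
      rw [he]
      exact Nat.Coprime.pow_right e ((Nat.Prime.coprime_iff_not_dvd hp).2 h6).symm
    obtain ⟨m, hm⟩ := exists_pow_eq_self_of_coprime h7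
    have h8 : ρ n0 = ((ρ n0) ^ l) ^ m := by
      rw [← map_pow, ← map_pow, hm]
    rw [h8]
    exact h5.pow_left m

end FbZ
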