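import Pool.Agent.Lib.MP_fb3619_al.H90.ZDefs

/-! Theorem Z, row FL (0.6b): a factorization of a Sylow subgroup. -/

namespace FbZ

open Subgroup
open scoped commutatorElement

universe u

namespace Fl

variable {M : Type u} [Group M] [Finite M]

/-- a set of products `A B` has at least `|A| |B| / |A ∩ B|` elements -/
theorem prod_le (A B : Subgroup M) (I : Set M) (hI : ∀ a ∈ A, ∀ b ∈ B, a * b ∈ I) :
    Nat.card A * Nat.card B ≤ Nat.card I * Nat.card (A ⊓ B : Subgroup M) := by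
  classical
  -- representatives
  have h1 : ∀ y : M, ∃ a : M, (∃ a' ∈ A, ∃ b' ∈ B, y = a' * b') → a ∈ A ∧ ∃ b ∈ B, y = a * b := by
    intro y
    by_cases hy : ∃ a' ∈ A, ∃ b' ∈ B, y = a' * b'
    · obtain ⟨a, ha, b, hb, e⟩ := hy
      exact ⟨a, fun _ => ⟨ha, b, hb, e⟩⟩
    · exact ⟨1, fun h => absurd h hy⟩
  choose r hr using h1
  have hmem : ∀ x : A × B, (r (x.1.1 * x.2.1))⁻¹ * x.1.1 ∈ A ⊓ B := by
    rintro ⟨a, b⟩
    obtain ⟨h2, b', hb', e⟩ := hr (a.1 * b.1) ⟨a.1, a.2, b.1, b.2, rfl⟩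
    refine mem_inf.2 ⟨mul_mem (inv_mem h2) a.2, ?_⟩
    have e2 : (r (a.1 * b.1))⁻¹ * a.1 = b' * (b.1)⁻¹ := by
      calc (r (a.1 * b.1))⁻¹ * a.1 = (r (a.1 * b.1))⁻¹ * (a.1 * b.1) * (b.1)⁻¹ := by group
        _ = (r (a.1 * b.1))⁻¹ * (r (a.1 * b.1) * b') * (b.1)⁻¹ := by rw [← e]
        _ = b' * (b.1)⁻¹ := by group
    show (r (a.1 * b.1))⁻¹ * a.1 ∈ B
    rw [e2]
    exact mul_mem hb' (inv_mem b.2)
  let φ : A × B → I × (A ⊓ B : Subgroup M) := fun x =>
    (⟨x.1.1 * x.2.1, hI _ x.1.2 _ x.2.2⟩, ⟨(r (x.1.1 * x.2.1))⁻¹ * x.1.1, hmem x⟩)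
  have hφ : Function.Injective φ := by
    rintro ⟨a, b⟩ ⟨a', b'⟩ e
    have e1 : a.1 * b.1 = a'.1 * b'.1 := congrArg (fun z => (z.1 : M)) e
    have e2 : (r (a.1 * b.1))⁻¹ * a.1 = (r (a'.1 * b'.1))⁻¹ * a'.1 :=
      congrArg (fun z => (z.2 : M)) e
    rw [e1] at e2
    have e3 : a.1 = a'.1 := mul_left_cancel e2
    rw [e3] at e1
    have e4 : b.1 = b'.1 := mul_left_cancel e1
    rw [Subtype.ext e3, Subtype.ext e4]
  have := Nat.card_le_card_of_injective φ hφ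
  rwa [Nat.card_prod, Nat.card_prod] at this

/-- a group covered by the products `A B` has at most `|A| |B| / |A ∩ B|` elements -/
theorem le_prod (A B C : Subgroup M) (hC : ∀ c ∈ C, ∃ a ∈ A, ∃ b ∈ B, c = a * b) :
    Nat.card C * Nat.card (A ⊓ B : Subgroup M) ≤ Nat.card A * Nat.card B := by
  classical
  have h1 : ∀ c : C, ∃ x : A × B, c.1 = x.1.1 * x.2.1 := by
    intro c
    obtain ⟨a, ha, b, hb, e⟩ := hC c.1 c.2
    exact ⟨(⟨a, ha⟩, ⟨b, hb⟩), e⟩
  choose r hr using h1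
  let φ : C × (A ⊓ B : Subgroup M) → A × B := fun x =>
    (⟨(r x.1).1.1 * x.2.1, mul_mem (r x.1).1.2 (mem_inf.1 x.2.2).1⟩,
      ⟨(x.2.1)⁻¹ * (r x.1).2.1, mul_mem (inv_mem (mem_inf.1 x.2.2).2) (r x.1).2.2⟩)
  have hφ : Function.Injective φ := by
    rintro ⟨c, x⟩ ⟨c', x'⟩ e
    have e1 : (r c).1.1 * x.1 = (r c').1.1 * x'.1 := congrArg (fun z => (z.1 : M)) e
    have e2 : (x.1)⁻¹ * (r c).2.1 = (x'.1)⁻¹ * (r c').2.1 := congrArg (fun z => (z.2 : M)) e
    have e3 : c.1 = c'.1 := by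
      rw [hr c, hr c']
      calc (r c).1.1 * (r c).2.1 = ((r c).1.1 * x.1) * ((x.1)⁻¹ * (r c).2.1) := by group
        _ = ((r c').1.1 * x'.1) * ((x'.1)⁻¹ * (r c').2.1) := by rw [e1, e2]
        _ = (r c').1.1 * (r c').2.1 := by group
    have e4 : c = c' := Subtype.ext e3
    subst e4
    have e5 : x.1 = x'.1 := mul_left_cancel e1
    rw [Subtype.ext e5]
  have := Nat.card_le_card_of_injective φ hφ
  rwa [Nat.card_prod, Nat.card_prod] at this

end Fl

open Fl in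
/-- row FL -/
theorem fl_proof : FLStatement.{u} := by
  intro M _ _ p C N H P hp hNC hHC hC hP hNP
  obtain ⟨S0, hS0⟩ := syl_ex hp H
  obtain ⟨c, hc, h1⟩ := syl_conj hp hP (hS0.1.trans hHC) hS0.isP
  obtain ⟨n, hn, h, hh, rfl⟩ := hC c hc
  refine ⟨n, hn, ?_⟩
  obtain ⟨S, hS⟩ : ∃ S : Subgroup M, S = S0.map (MulAut.conj (n * h)).toMonoidHom := ⟨_, rfl⟩
  have hcS : Nat.card S = p ^ (Nat.card H).factorization p := by
    rw [hS, card_map_of_injective (f := (MulAut.conj (n * h)).toMonoidHom)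
      (MulAut.conj (n * h)).injective, hS0.2]
  have hSp : IsPGroup p S := IsPGroup.of_card hcS
  have hSP : S ≤ P := by
    rw [hS]
    rintro _ ⟨t, ht, rfl⟩
    exact h1 t ht
  have hSH : ∀ x ∈ S, n⁻¹ * x * n ∈ H := by
    rw [hS]
    rintro _ ⟨t, ht, rfl⟩
    have e : n⁻¹ * (MulAut.conj (n * h)).toMonoidHom t * n = h * t * h⁻¹ := by
      show n⁻¹ * (n * h * t * (n * h)⁻¹) * n = h * t * h⁻¹
      group
    rw [e]
    exact mul_mem (mul_mem hh (hS0.1 ht)) (inv_mem hh)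
  -- the orders
  have e1 : Nat.card C * Nat.card (N ⊓ H : Subgroup M) = Nat.card N * Nat.card H := by
    apply le_antisymm
    · exact le_prod N H C hC
    · exact prod_le N H (C : Set M) fun a ha b hb => mul_mem (hNC ha) (hHC hb)
  have e2 : (Nat.card C).factorization p + (Nat.card (N ⊓ H : Subgroup M)).factorization p =
      (Nat.card N).factorization p + (Nat.card H).factorization p := by
    have h2 := congrArg (fun k : ℕ => k.factorization p) e1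
    rw [Nat.factorization_mul Nat.card_pos.ne' Nat.card_pos.ne',
      Nat.factorization_mul Nat.card_pos.ne' Nat.card_pos.ne'] at h2
    exact h2
  have e3 : Nat.card ((N ⊓ P) ⊓ S : Subgroup M) ≤
      p ^ (Nat.card (N ⊓ H : Subgroup M)).factorization p := by
    have : Fact p.Prime := ⟨hp⟩
    have h2 : IsPGroup p ((N ⊓ P) ⊓ S : Subgroup M) := hSp.to_le inf_le_right
    obtain ⟨k, hk⟩ := IsPGroup.iff_card.1 h2
    have h3 : Nat.card ((N ⊓ P) ⊓ S : Subgroup M) ∣ Nat.card (N ⊓ H : Subgroup M) := by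
      have h4 : ((N ⊓ P) ⊓ S : Subgroup M).map (MulAut.conj n⁻¹).toMonoidHom ≤ N ⊓ H := by
        rintro _ ⟨t, ht, rfl⟩
        obtain ⟨h5, h6⟩ := mem_inf.1 (SetLike.mem_coe.1 ht)
        have e : (MulAut.conj n⁻¹).toMonoidHom t = n⁻¹ * t * n := by
          show n⁻¹ * t * (n⁻¹)⁻¹ = n⁻¹ * t * n
          rw [inv_inv]
        rw [e]
        exact mem_inf.2 ⟨mul_mem (mul_mem (inv_mem hn) (mem_inf.1 h5).1) hn, hSH t h6⟩
      have h7 := card_dvd_of_le h4
      rwa [card_map_of_injective (f := (MulAut.conj n⁻¹).toMonoidHom)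
        (MulAut.conj n⁻¹).injective] at h7
    rw [hk] at h3 ⊢
    exact Nat.pow_le_pow_right hp.pos
      ((hp.pow_dvd_iff_le_factorization Nat.card_pos.ne').1 h3)
  -- the products `(N ∩ P) S`
  intro w hw
  by_contra hcon
  push Not at hcon
  have hI := prod_le (N ⊓ P) S {x | x ∈ P ∧ x ≠ w} (by
    intro a ha b hb
    refine ⟨mul_mem (mem_inf.1 ha).2 (hSP hb), ?_⟩
    rintro rfl
    refine hcon a⁻¹ (inv_mem ha) ?_
    rw [inv_mul_cancel_left]
    exact hSH b hb)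
  have e4 : Nat.card ({x | x ∈ P ∧ x ≠ w} : Set M) < Nat.card P := by
    rw [Nat.card_coe_set_eq, ← SetLike.coe_sort_coe, Nat.card_coe_set_eq]
    refine Set.ncard_lt_ncard ?_ (Set.toFinite _)
    refine ⟨fun x hx => hx.1, fun h2 => ?_⟩
    exact (h2 hw).2 rfl
  have e5 : Nat.card (N ⊓ P : Subgroup M) * Nat.card S < Nat.card P *
      p ^ (Nat.card (N ⊓ H : Subgroup M)).factorization p :=
    calc Nat.card (N ⊓ P : Subgroup M) * Nat.card S
        ≤ Nat.card ({x | x ∈ P ∧ x ≠ w} : Set M) * Nat.card ((N ⊓ P) ⊓ S : Subgroup M) := hI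
      _ ≤ Nat.card ({x | x ∈ P ∧ x ≠ w} : Set M) *
          p ^ (Nat.card (N ⊓ H : Subgroup M)).factorization p := Nat.mul_le_mul_left _ e3
      _ < Nat.card P * p ^ (Nat.card (N ⊓ H : Subgroup M)).factorization p :=
          Nat.mul_lt_mul_of_pos_right e4 (pow_pos hp.pos _)
  rw [hNP.2, hcS, hP.2, ← pow_add, ← pow_add, e2] at e5
  exact lt_irrefl _ e5

end FbZ
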