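import Pool.Agent.Lib.MP_fb3619_al.H90.ZDefs

/-! Theorem Z, row HYP: a family of conjugate elementary abelian subgroups. -/

namespace FbZ

open Subgroup

universe u

/-- a subgroup of index at most `p` in a `p`-group is maximal -/
theorem hyp_sup {M : Type u} [Group M] [Finite M] {p : ℕ} (hp : p.Prime) {O A D : Subgroup M}
    (hO : IsPGroup p O) (hA : A ≤ O) (hD : D ≤ O) (hi : A.relIndex O ≤ p) (hn : ¬ D ≤ A) :
    O ≤ A ⊔ D := by
  have hS : A ⊔ D ≤ O := sup_le hA hD
  have h1 := Subgroup.relIndex_mul_relIndex A (A ⊔ D) O le_sup_left hS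
  have h2 : A.relIndex (A ⊔ D) ≠ 1 := by
    intro h
    rw [Subgroup.relIndex_eq_one] at h
    exact hn (le_sup_right.trans h)
  have : Fact p.Prime := ⟨hp⟩
  obtain ⟨n, hn'⟩ := IsPGroup.iff_card.mp hO
  have h3 : A.relIndex (A ⊔ D) ∣ p ^ n := by
    rw [← hn']
    exact (Subgroup.relIndex_dvd_card A (A ⊔ D)).trans (Subgroup.card_dvd_of_le hS)
  obtain ⟨k, -, hk⟩ := (Nat.dvd_prime_pow hp).mp h3
  have h4 : p ≤ A.relIndex (A ⊔ D) := by
    rw [hk]
    rcases k with _ | k
    · exact absurd (by simpa using hk) h2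
    · calc p = p ^ 1 := (pow_one p).symm
        _ ≤ p ^ (k + 1) := Nat.pow_le_pow_right hp.pos (by omega)
  have h5 : (A ⊔ D).relIndex O ≤ 1 := by
    by_contra h
    push Not at h
    have : p * 2 ≤ A.relIndex (A ⊔ D) * (A ⊔ D).relIndex O := Nat.mul_le_mul h4 h
    have := hp.pos
    omega
  have h6 : (A ⊔ D).relIndex O ≠ 0 :=
    Subgroup.index_ne_zero_of_finite (H := (A ⊔ D).subgroupOf O)
  rw [← Subgroup.relIndex_eq_one]
  omega

theorem hyp_proof : HYPStatement.{u} := by
  intro M _ _ p O hp hab hexp hidx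
  by_contra hcon
  push Not at hcon
  obtain ⟨⟨m, a₀, ha₀, b₀, hb₀, hne⟩, hcore⟩ := hcon
  have hOp : IsPGroup p O := fun x => ⟨1, by
    ext
    simpa using hexp x x.2⟩
  set c : M → Subgroup M := fun k => O.map (MulAut.conj k).toMonoidHom with hc
  have hcp : ∀ k, IsPGroup p (c k) := fun k => hOp.map _
  have hcab : ∀ k, ∀ a ∈ c k, ∀ b ∈ c k, a * b = b * a := by
    rintro k _ ⟨a, ha, rfl⟩ _ ⟨b, hb, rfl⟩
    rw [← map_mul, ← map_mul, hab a ha b hb]
  have hmc : ∀ k x, x ∈ c k ↔ k⁻¹ * x * k ∈ O := by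
    intro k x
    constructor
    · rintro ⟨a, ha, rfl⟩
      have : k⁻¹ * (k * a * k⁻¹) * k = a := by group
      simpa [this] using ha
    · intro h
      exact ⟨k⁻¹ * x * k, h, by simp [MulAut.conj_apply]; group⟩
  have hrel : ∀ k l, (c k).relIndex (c l) ≤ p := by
    intro k l
    have h1 : c k = (c (l⁻¹ * k)).map (MulAut.conj l).toMonoidHom := by
      ext x
      constructor
      · intro h
        refine ⟨l⁻¹ * x * l, ?_, by simp [MulAut.conj_apply]; group⟩
        show l⁻¹ * x * l ∈ c (l⁻¹ * k)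
        rw [hmc] at h ⊢
        have : (l⁻¹ * k)⁻¹ * (l⁻¹ * x * l) * (l⁻¹ * k) = k⁻¹ * x * k := by group
        rwa [this]
      · rintro ⟨y, hy, rfl⟩
        have hy' : y ∈ c (l⁻¹ * k) := hy
        rw [hmc] at hy' ⊢
        have : k⁻¹ * ((MulAut.conj l).toMonoidHom y) * k =
            (l⁻¹ * k)⁻¹ * y * (l⁻¹ * k) := by
          simp [MulAut.conj_apply]; group
        rwa [this]
    rw [h1]
    have h2 : ((c (l⁻¹ * k)).map (MulAut.conj l).toMonoidHom).relIndex (c l) =
        (c (l⁻¹ * k)).relIndex O :=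
      Subgroup.relIndex_map_map_of_injective _ _ (MulAut.conj l).injective
    rw [h2]
    exact hidx _
  -- the intersection
  set D := O ⊓ c m with hD
  have hDk : ∀ k, D ≤ c k := by
    intro k
    by_contra hk
    apply hne
    have e1 : O ≤ (O ⊓ c k) ⊔ D := by
      refine hyp_sup hp hOp inf_le_left inf_le_left ?_ ?_
      · rw [inf_comm, Subgroup.inf_relIndex_right]
        exact hidx k
      · intro h
        exact hk (h.trans inf_le_right)
    have e2 : c m ≤ (c m ⊓ c k) ⊔ D := by
      refine hyp_sup hp (hcp m) inf_le_left inf_le_right ?_ ?_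
      · rw [inf_comm, Subgroup.inf_relIndex_right]
        exact hrel k m
      · intro h
        exact hk (h.trans inf_le_right)
    have e3 : O ⊓ c k ≤ Subgroup.centralizer (c m : Set M) := by
      intro a ha
      have : (c m : Subgroup M) ≤ Subgroup.centralizer {a} := by
        refine e2.trans (sup_le ?_ ?_)
        · intro b hb
          rw [Subgroup.mem_centralizer_singleton_iff]
          exact (hcab k a ha.2 b hb.2).symm
        · intro b hb
          rw [Subgroup.mem_centralizer_singleton_iff]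
          exact (hab a ha.1 b hb.1).symm
      rw [Subgroup.mem_centralizer_iff]
      intro b hb
      have := this hb
      rw [Subgroup.mem_centralizer_singleton_iff] at this
      exact this
    have e4 : D ≤ Subgroup.centralizer (c m : Set M) := by
      intro a ha
      rw [Subgroup.mem_centralizer_iff]
      intro b hb
      exact hcab m b hb a ha.2
    have e5 : O ≤ Subgroup.centralizer (c m : Set M) := e1.trans (sup_le e3 e4)
    have e6 := e5 ha₀
    rw [Subgroup.mem_centralizer_iff] at e6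
    refine (e6 (m * b₀ * m⁻¹) ?_).symm
    exact ⟨b₀, hb₀, by simp [MulAut.conj_apply]⟩
  have hDc : D ≤ O.normalCore := by
    intro d hd b
    have := hDk b⁻¹ hd
    rw [hmc] at this
    simpa using this
  have h7 : D.relIndex O ≤ p := by
    rw [hD, inf_comm, Subgroup.inf_relIndex_right]
    exact hidx m
  have h8 : O.normalCore.relIndex O ≤ D.relIndex O :=
    Subgroup.relIndex_le_of_le_left hDc
      (Subgroup.index_ne_zero_of_finite (H := D.subgroupOf O))
  omega

end FbZ
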