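import Pool.Agent.Lib.MP_fb3619_al.H90.ZDefs

/-! Theorem Z, row IH: (0.9) of finding 4602. -/

set_option autoImplicit false

namespace FbZ

open Subgroup
open scoped commutatorElement

universe u

namespace Ih

variable {W : Type u} [Group W]

theorem mk_comm (D : Subgroup W) [D.Normal] (x w : W) :
    ⁅x, w⁆ ∈ D ↔ (x : W ⧸ D) * (w : W ⧸ D) = (w : W ⧸ D) * (x : W ⧸ D) := by
  rw [← QuotientGroup.eq_one_iff, commutatorElement_def]
  simp only [QuotientGroup.mk_mul, QuotientGroup.mk_inv]
  rw [mul_inv_eq_one, mul_inv_eq_iff_eq_mul]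

/-- The elements that are central modulo `D`. -/
def rad (D : Subgroup W) [D.Normal] : Subgroup W := (center (W ⧸ D)).comap (QuotientGroup.mk' D)

instance (D : Subgroup W) [D.Normal] : (rad D).Normal := by
  unfold rad
  infer_instance

theorem mem_rad {D : Subgroup W} [D.Normal] {x : W} : x ∈ rad D ↔ ∀ w : W, ⁅x, w⁆ ∈ D := by
  unfold rad
  rw [mem_comap, mem_center_iff]
  constructor
  · intro h w
    rw [mk_comm]
    exact (h _).symm
  · intro h a
    obtain ⟨w, rfl⟩ := QuotientGroup.mk_surjective a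
    exact ((mk_comm D x w).1 (h w)).symm

theorem card_aux {p q j : ℕ} (hp : p.Prime) (hp2 : p ≠ 2) (hq : q.Prime) (hpq : p < q)
    (hj : p ^ j ≤ p * p) (hj0 : j ≠ 0) (h : p ^ j ≡ 1 [MOD q]) : False := by
  have hp3 : 3 ≤ p := by
    have := hp.two_le
    omega
  have hj2 : j ≤ 2 := by
    by_contra hc
    have h1 : p ^ 3 ≤ p ^ j := Nat.pow_le_pow_right hp.pos (by omega)
    have h2 : p ^ 3 = p * p * p := by ring
    nlinarith [hp.pos]
  have h2 : q ∣ p ^ j - 1 := (Nat.modEq_iff_dvd' (Nat.one_le_pow _ _ hp.pos)).1 h.symm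
  have h1 : q ∣ (p - 1) * (p + 1) := by
    have hj' : j = 1 ∨ j = 2 := by omega
    rcases hj' with rfl | rfl
    · rw [pow_one] at h2
      exact h2.mul_right _
    · have h3 : p ^ 2 - 1 = (p - 1) * (p + 1) := by
        obtain ⟨a, rfl⟩ : ∃ a, p = a + 1 := ⟨p - 1, by omega⟩
        simp only [Nat.add_sub_cancel]
        have : (a + 1) ^ 2 = a * (a + 1 + 1) + 1 := by ring
        rw [this, Nat.add_sub_cancel]
      rw [← h3]
      exact h2
  rcases (hq.dvd_mul).1 h1 with h3 | h3
  · have := Nat.le_of_dvd (by omega) h3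
    omega
  · have h4 := Nat.le_of_dvd (by omega) h3
    have h5 : q = p + 1 := by omega
    rcases hp.eq_two_or_odd' with h6 | h6
    · exact hp2 h6
    · rcases hq.eq_two_or_odd' with h7 | h7
      · omega
      · obtain ⟨a, ha⟩ := h6
        obtain ⟨b, hb⟩ := h7
        omega

end Ih

open Ih in
theorem ih_proof : IHStatement.{u} := by
  classical
  intro W _ _ g p q D H c hp hp2 hq hpq hW hg hD hgD hc hcp hcen hH hHi hfp hex
  have : Fact p.Prime := ⟨hp⟩
  -- `H` has index `p`
  obtain ⟨k, hk⟩ := hW.index H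
  have hk1 : k = 0 ∨ k = 1 := by
    by_contra hcon
    have h1 : p ^ 2 ≤ p ^ k := Nat.pow_le_pow_right hp.pos (by omega)
    have h2 : p ^ 2 = p * p := by ring
    have h3 := hp.two_le
    rw [hk] at hHi
    nlinarith
  obtain ⟨x0, w0, hx0⟩ := hex
  have hHtop : H ≠ ⊤ := by
    intro hT
    exact hx0 (hH x0 (by rw [hT]; exact mem_top _) w0 (by rw [hT]; exact mem_top _))
  have hHp : H.index = p := by
    rcases hk1 with rfl | rfl
    · rw [pow_zero, index_eq_one] at hk
      exact (hHtop hk).elim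
    · rw [hk, pow_one]
  obtain ⟨t, ht⟩ : ∃ t, t ∉ H := by
    by_contra hcon
    push Not at hcon
    exact hHtop ((eq_top_iff' H).2 hcon)
  -- a subgroup that contains `H` and `t` is everything
  have htop : ∀ K : Subgroup W, H ≤ K → t ∈ K → K = ⊤ := by
    intro K hK htK
    have h1 : K.index ∣ p := by
      rw [← hHp]
      exact index_dvd_of_le hK
    rcases (Nat.dvd_prime hp).1 h1 with h2 | h2
    · exact index_eq_one.1 h2
    · exfalso
      have h3 := relIndex_mul_index hK
      rw [h2, hHp] at h3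
      have h4 : H.relIndex K = 1 := by
        have := hp.pos
        exact Nat.eq_of_mul_eq_mul_right this (by rw [h3, one_mul])
      exact ht ((relIndex_eq_one.1 h4) htK)
  -- commutators are central modulo `D`
  have hcm : ∀ a b w : W, ((⁅a, b⁆ : W) : W ⧸ D) * (w : W ⧸ D) = (w : W ⧸ D) * ((⁅a, b⁆ : W) : W ⧸ D) := by
    intro a b w
    exact (mk_comm D _ w).1 (hcen _ (commutator_mem_commutator (mem_top a) (mem_top b)) w)
  -- the homomorphism
  have hmul : ∀ a b : W, ((⁅a * b, t⁆ : W) : W ⧸ D) = ((⁅a, t⁆ : W) : W ⧸ D) * ((⁅b, t⁆ : W) : W ⧸ D) := by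
    intro a b
    have h1 : (⁅a * b, t⁆ : W) = a * ⁅b, t⁆ * a⁻¹ * ⁅a, t⁆ := by
      simp only [commutatorElement_def]
      group
    rw [h1]
    simp only [QuotientGroup.mk_mul, QuotientGroup.mk_inv]
    rw [← hcm b t a, mul_assoc ((⁅b, t⁆ : W) : W ⧸ D), mul_inv_cancel, mul_one]
    exact hcm b t ⁅a, t⁆
  let φ : H →* W ⧸ D :=
    { toFun := fun h => ((⁅(h : W), t⁆ : W) : W ⧸ D)
      map_one' := by
        simp only [OneMemClass.coe_one, commutatorElement_one_left, QuotientGroup.mk_one]
      map_mul' := fun a b => hmul a b }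
  have hφ : ∀ h : H, φ h = ((⁅(h : W), t⁆ : W) : W ⧸ D) := fun _ => rfl
  have hrange : φ.range ≤ zpowers ((c : W) : W ⧸ D) := by
    rintro _ ⟨h, rfl⟩
    rw [hφ]
    obtain ⟨k, hk⟩ := hc _ (commutator_mem_commutator (mem_top (h : W)) (mem_top t))
    have h1 := (QuotientGroup.eq_one_iff _).2 hk
    simp only [QuotientGroup.mk_mul, QuotientGroup.mk_inv, QuotientGroup.mk_pow] at h1
    rw [inv_mul_eq_one] at h1
    rw [← h1]
    exact pow_mem (mem_zpowers _) k
  have hcardr : Nat.card φ.range ≤ p := by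
    have h1 : Nat.card φ.range ∣ Nat.card (zpowers ((c : W) : W ⧸ D)) := card_dvd_of_le hrange
    rw [Nat.card_zpowers] at h1
    have h2 : orderOf ((c : W) : W ⧸ D) ∣ p := by
      apply orderOf_dvd_of_pow_eq_one
      rw [← QuotientGroup.mk_pow]
      exact (QuotientGroup.eq_one_iff _).2 hcp
    exact Nat.le_of_dvd hp.pos (h1.trans h2)
  have hker : φ.ker ≤ (rad D).subgroupOf H := by
    intro h hh
    rw [mem_subgroupOf, mem_rad]
    have h1 : (⁅(h : W), t⁆ : W) ∈ D := (QuotientGroup.eq_one_iff _).1 hh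
    have h2 := htop ((centralizer {((h : W) : W ⧸ D)}).comap (QuotientGroup.mk' D)) (by
      intro a ha
      rw [mem_comap, mem_centralizer_singleton_iff]
      exact ((mk_comm D _ _).1 (hH h h.2 a ha)).symm) (by
      rw [mem_comap, mem_centralizer_singleton_iff]
      exact ((mk_comm D _ _).1 h1).symm)
    intro w
    have h3 : w ∈ (centralizer {((h : W) : W ⧸ D)}).comap (QuotientGroup.mk' D) := by
      rw [h2]
      exact mem_top _
    rw [mem_comap, mem_centralizer_singleton_iff] at h3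
    exact (mk_comm D _ _).2 h3.symm
  have hrel : (rad D).relIndex H ≤ p := by
    have h1 : ((rad D).subgroupOf H).index ∣ φ.ker.index := index_dvd_of_le hker
    rw [index_ker] at h1
    exact (Nat.le_of_dvd Nat.card_pos h1).trans hcardr
  have hidx : (rad D).index ≤ p * p := by
    have h1 : (rad D).index ∣ (rad D ⊓ H).index := index_dvd_of_le inf_le_left
    have h2 : (rad D ⊓ H).relIndex H * H.index = (rad D ⊓ H).index :=
      relIndex_mul_index inf_le_right
    rw [inf_relIndex_right, hHp] at h2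
    have h3 : (rad D ⊓ H).index ≠ 0 := index_ne_zero_of_finite
    calc (rad D).index ≤ (rad D ⊓ H).index := Nat.le_of_dvd (Nat.pos_of_ne_zero h3) h1
      _ = (rad D).relIndex H * p := h2.symm
      _ ≤ p * p := Nat.mul_le_mul_right _ hrel
  obtain ⟨j, hj⟩ := hW.index (rad D)
  have hj0 : j ≠ 0 := by
    rintro rfl
    rw [pow_zero, index_eq_one] at hj
    have h1 : x0 ∈ rad D := by
      rw [hj]
      exact mem_top _
    exact hx0 (mem_rad.1 h1 w0)
  -- the action on the quotient
  have hgr : rad D ≤ (rad D).comap g.toMonoidHom := by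
    intro x hx
    rw [mem_comap, mem_rad]
    intro w
    obtain ⟨w', rfl⟩ := g.surjective w
    have h1 := hgD _ (mem_rad.1 hx w')
    rw [map_commutatorElement] at h1
    exact h1
  let f : W ⧸ rad D → W ⧸ rad D := QuotientGroup.map (rad D) (rad D) g.toMonoidHom hgr
  have hf : ∀ x : W, f (x : W ⧸ rad D) = ((g x : W) : W ⧸ rad D) := fun _ => rfl
  have hfi : ∀ (k : ℕ) (x : W), f^[k] (x : W ⧸ rad D) = (((⇑g)^[k] x : W) : W ⧸ rad D) := by
    intro k
    induction k with
    | zero => intro x; rfl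
    | succ k ih =>
      intro x
      rw [Function.iterate_succ_apply, Function.iterate_succ_apply, hf, ih]
  have h1 := fpc hq f (by
    intro a
    obtain ⟨x, rfl⟩ := QuotientGroup.mk_surjective a
    rw [hfi, hg])
  have h2 : Nat.card {a // f a = a} = 1 := by
    rw [Nat.card_eq_one_iff_unique]
    have hall : ∀ a, f a = a → a = 1 := by
      intro a ha
      obtain ⟨x, rfl⟩ := QuotientGroup.mk_surjective a
      rw [hf] at ha
      have h3 : x⁻¹ * g x ∈ rad D := QuotientGroup.eq.1 ha.symm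
      exact (QuotientGroup.eq_one_iff _).2 (mem_rad.2 (hfp x (mem_rad.1 h3)))
    refine ⟨⟨fun a b => ?_⟩, ⟨⟨1, ?_⟩⟩⟩
    · apply Subtype.ext
      rw [hall a.1 a.2, hall b.1 b.2]
    · have h4 := hf 1
      rw [map_one] at h4
      exact h4
  rw [h2, ← index_eq_card, hj] at h1
  exact card_aux hp hp2 hq hpq (hj ▸ hidx) hj0 h1

end FbZ
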