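import Pool.Agent.Lib.MP_fb3619_al.H90.ZDefs

/-! Theorem Z: passing to the quotient by an invariant normal inverted `p`-subgroup. -/

set_option autoImplicit false

namespace FbZ

open Subgroup

universe u

section QuoAux

variable {M : Type u} [Group M] [Finite M] {s g : M ≃* M} {p q : ℕ}

/-- an inverted normal subgroup is central -/
theorem quo_central (odd : Odd (Nat.card M)) (gen : closure {x : M | s x = x⁻¹} = ⊤)
    {X : Subgroup M} (nX : X.Normal) (hX : ∀ x ∈ X, s x = x⁻¹) (m : M) {x : M} (hx : x ∈ X) :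
    m * x = x * m := by
  have h0 : closure {x : M | s x = x⁻¹} ≤ centralizer (X : Set M) := by
    rw [closure_le]
    intro i hi
    have hi' : s i = i⁻¹ := hi
    show i ∈ centralizer (X : Set M)
    rw [mem_centralizer_iff]
    intro y hy
    have hy' : y ∈ X := hy
    have h1 : i * y * i⁻¹ ∈ X := nX.conj_mem y hy' i
    have h2 := hX _ h1
    rw [map_mul, map_mul, map_inv, hi', hX y hy', inv_inv] at h2
    -- i⁻¹ * y⁻¹ * i = (i * y * i⁻¹)⁻¹
    have h3 : (i * i) * y = y * (i * i) := by
      have h4 : i⁻¹ * y * i = i * y * i⁻¹ := by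
        have := congrArg (fun t => t⁻¹) h2
        simp only [inv_inv] at this
        rw [← this]
        group
      calc (i * i) * y = i * (i * y * i⁻¹) * i := by group
        _ = i * (i⁻¹ * y * i) * i := by rw [h4]
        _ = y * (i * i) := by group
    exact (sq_comm odd h3).symm
  have h1 : m ∈ centralizer (X : Set M) := by
    apply h0
    rw [gen]
    exact mem_top m
  exact ((mem_centralizer_iff.1 h1) x hx).symm

/-- every lift of an inverted element is inverted -/
theorem quo_inv (odd : Odd (Nat.card M)) (gen : closure {x : M | s x = x⁻¹} = ⊤)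
    (ss : ∀ x, s (s x) = x) {X : Subgroup M} (nX : X.Normal) (hX : ∀ x ∈ X, s x = x⁻¹) {y : M}
    (hy : y * s y ∈ X) : s y = y⁻¹ := by
  have h1 := hX _ hy
  rw [map_mul, ss] at h1
  -- s y * y = (y * s y)⁻¹
  have h2 := quo_central odd gen nX hX y hy
  have h3 : s y * y = y * s y := by
    have : y * (y * s y) = y * (s y * y) := by rw [h2, mul_assoc]
    exact (mul_left_cancel this).symm
  rw [h3] at h1
  have h4 : (y * s y) * (y * s y) = 1 * 1 := by
    rw [one_mul]
    nth_rewrite 1 [h1]
    exact inv_mul_cancel _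
  have h5 := sq_inj odd h4
  exact (inv_eq_of_mul_eq_one_right h5).symm

end QuoAux

theorem quo_proof : QUOStatement.{u} := by
  intro M _ _ s g p q z X D hAB nX hA hp hX hne
  have A := D.act
  have fact : Fact p.Prime := ⟨D.pp⟩
  have es : X.map (s : M →* M) = X := by
    ext x
    constructor
    · rintro ⟨y, hy, rfl⟩
      exact hA.1 y hy
    · intro hx
      obtain ⟨y, hy, h⟩ := map_eq_of (by norm_num) A.two hA.1 hx
      exact ⟨y, hy, h⟩
  have eg : X.map (g : M →* M) = X := by
    ext x
    constructor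
    · rintro ⟨y, hy, rfl⟩
      exact hA.2 y hy
    · intro hx
      obtain ⟨y, hy, h⟩ := map_eq_of A.qp.pos A.gq hA.2 hx
      exact ⟨y, hy, h⟩
  let s' : M ⧸ X ≃* M ⧸ X := QuotientGroup.congr X X s es
  let g' : M ⧸ X ≃* M ⧸ X := QuotientGroup.congr X X g eg
  have s'm : ∀ m : M, s' (m : M ⧸ X) = ((s m : M) : M ⧸ X) := fun m => rfl
  have g'm : ∀ m : M, g' (m : M ⧸ X) = ((g m : M) : M ⧸ X) := fun m => rfl
  have g'k : ∀ (k : ℕ) (m : M), (⇑g')^[k] (m : M ⧸ X) = (((⇑g)^[k] m : M) : M ⧸ X) := by
    intro k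
    induction k with
    | zero => intro m; rfl
    | succ k ih =>
      intro m
      rw [Function.iterate_succ_apply, Function.iterate_succ_apply, g'm, ih]
  -- lifting of fixed elements
  have ls : ∀ m : M, s' (m : M ⧸ X) = (m : M ⧸ X) → ∃ h ∈ X, s (m * h) = m * h := by
    intro m hm
    apply coset_fix Nat.prime_two A.n2 A.two X hA.1
    rw [s'm] at hm
    exact QuotientGroup.eq.1 hm.symm
  have lg : ∀ m : M, g' (m : M ⧸ X) = (m : M ⧸ X) → ∃ h ∈ X, g (m * h) = m * h := by
    intro m hm
    apply coset_fix A.qp A.qn A.gq X hA.2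
    rw [g'm] at hm
    exact QuotientGroup.eq.1 hm.symm
  have mh : ∀ (m h : M), h ∈ X → ((m * h : M) : M ⧸ X) = (m : M ⧸ X) := by
    intro m h hh
    rw [QuotientGroup.mk_mul, (QuotientGroup.eq_one_iff h).2 hh, mul_one]
  -- lifting of inverted elements
  have li : ∀ m : M, s' (m : M ⧸ X) = (m : M ⧸ X)⁻¹ → s m = m⁻¹ := by
    intro m hm
    apply quo_inv A.odd D.gen A.ss nX hX
    rw [← QuotientGroup.eq_one_iff, QuotientGroup.mk_mul, ← s'm, hm, mul_inv_cancel]
  have hcard : Nat.card M = Nat.card (M ⧸ X) * Nat.card X :=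
    card_eq_card_quotient_mul_card_subgroup X
  have hdvd : Nat.card (M ⧸ X) ∣ Nat.card M := ⟨_, hcard⟩
  -- the preimage of a `p`-subgroup
  have pre : ∀ T : Subgroup (M ⧸ X), IsPGroup p T →
      IsPGroup p (T.comap (QuotientGroup.mk' X)) := by
    intro T hT
    apply hT.comap_of_ker_isPGroup
    rw [QuotientGroup.ker_mk']
    exact hp
  refine ⟨M ⧸ X, inferInstance, inferInstance, s', g', (z : M ⧸ X), ?_, ?_, ?_⟩
  · rw [hcard]
    have h1 : 1 < Nat.card X := (one_lt_card_iff_ne_bot X).2 hne
    exact lt_mul_of_one_lt_right Nat.card_pos h1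
  · refine ⟨⟨?_, ?_, ?_, ?_, A.qp, ?_, ?_⟩, ?_, D.pp, D.p2, D.pq, ?_, ?_, ?_, ?_, ?_⟩
    · exact A.odd.of_dvd_nat hdvd
    · intro x
      obtain ⟨m, rfl⟩ := QuotientGroup.mk_surjective x
      rw [s'm, s'm, A.ss]
    · intro x
      obtain ⟨m, rfl⟩ := QuotientGroup.mk_surjective x
      rw [g'k, A.gq]
    · intro x
      obtain ⟨m, rfl⟩ := QuotientGroup.mk_surjective x
      rw [g'm, s'm, s'm, g'm, A.sg]
    · exact fun h => A.qn (h.trans hdvd)
    · intro x
      obtain ⟨m, rfl⟩ := QuotientGroup.mk_surjective x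
      constructor
      · intro h
        obtain ⟨t, ht, h1⟩ := ls m h
        have h2 := (A.fx _).1 h1
        rw [← mh m t ht, g'm, h2]
      · intro h
        obtain ⟨t, ht, h1⟩ := lg m h
        have h2 := (A.fx _).2 h1
        rw [← mh m t ht, s'm, h2]
    · rw [eq_top_iff]
      intro x _
      obtain ⟨m, rfl⟩ := QuotientGroup.mk_surjective x
      have h1 : closure {x : M | s x = x⁻¹} ≤
          (closure {x : M ⧸ X | s' x = x⁻¹}).comap (QuotientGroup.mk' X) := by
        rw [closure_le]
        intro i hi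
        have hi' : s i = i⁻¹ := hi
        show (QuotientGroup.mk' X) i ∈ closure {x : M ⧸ X | s' x = x⁻¹}
        apply Subgroup.subset_closure
        show s' (i : M ⧸ X) = (i : M ⧸ X)⁻¹
        rw [s'm, hi', QuotientGroup.mk_inv]
      have h2 : m ∈ closure {x : M | s x = x⁻¹} := by
        rw [D.gen]
        exact mem_top m
      exact h1 h2
    · rw [s'm, D.sz]
    · rw [← QuotientGroup.mk_pow, D.zp, QuotientGroup.mk_one]
    · intro h
      have h1 : z ∈ X := (QuotientGroup.eq_one_iff z).1 h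
      have h2 := hX z h1
      rw [D.sz] at h2
      apply D.z1
      apply sq_inj A.odd (y := 1)
      rw [one_mul]
      nth_rewrite 1 [h2]
      exact inv_mul_cancel z
    · intro n hn
      obtain ⟨m, rfl⟩ := QuotientGroup.mk_surjective n
      obtain ⟨t, ht, h1⟩ := ls m hn
      have h2 := D.zc _ h1
      rw [← mh m t ht, ← QuotientGroup.mk_mul, h2, QuotientGroup.mk_mul]
    · intro T hT hTp
      have h1 : IsPGroup p (T.comap (QuotientGroup.mk' X) ⊓ Nn s : Subgroup M) :=
        (pre T hTp).to_inf_left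
      have h2 := D.cyc _ inf_le_right h1
      have h3 : (T.comap (QuotientGroup.mk' X) ⊓ Nn s : Subgroup M).map (QuotientGroup.mk' X)
          = T := by
        ext t
        constructor
        · rintro ⟨m, hm, rfl⟩
          exact hm.1
        · intro ht
          obtain ⟨m, rfl⟩ := QuotientGroup.mk_surjective t
          obtain ⟨x, hx, h4⟩ := ls m (hT ht)
          refine ⟨m * x, ⟨?_, h4⟩, mh m x hx⟩
          show ((m * x : M) : M ⧸ X) ∈ T
          rw [mh m x hx]
          exact ht
      rw [← h3]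
      exact isCyclic_of_surjective _ (MonoidHom.subgroupMap_surjective (QuotientGroup.mk' X)
        (T.comap (QuotientGroup.mk' X) ⊓ Nn s))
  · intro T hT hTp x hx y hy hsx hsy
    obtain ⟨a, rfl⟩ := QuotientGroup.mk_surjective x
    obtain ⟨b, rfl⟩ := QuotientGroup.mk_surjective y
    have h1 : AInv s g (T.comap (QuotientGroup.mk' X)) := by
      refine ⟨fun m hm => ?_, fun m hm => ?_⟩
      · exact hT.1 _ hm
      · exact hT.2 _ hm
    have h2 := hAB _ h1 (pre T hTp) a hx b hy (li a hsx) (li b hsy)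
    rw [← QuotientGroup.mk_mul, h2, QuotientGroup.mk_mul]

end FbZ
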